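import Pool.Agent.P8H66.WT.L

/-! # Weights for the Hilbert transform on functions of mean zero: the characterization -/

set_option autoImplicit false

open MeasureTheory Filter Topology Set
open scoped ENNReal NNReal Real

namespace Pool.Agent.Results.MP_945c9c_an.MeanZeroWeights

/-- The truncated integral `(1/π) ∫_{|y-x|>δ} f(y)/(x-y) dy`. -/
noncomputable def truncated (f : ℝ → ℂ) (δ x : ℝ) : ℂ :=
  (1 / (π : ℂ)) * ∫ y in {y : ℝ | δ < |y - x|}, f y / ((x : ℂ) - (y : ℂ))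

/-- The principal value defining `Hf(x)` exists and equals `v`. -/
def HasPV (f : ℝ → ℂ) (x : ℝ) (v : ℂ) : Prop :=
  Tendsto (fun δ : ℝ => truncated f δ x) (𝓝[>] (0 : ℝ)) (𝓝 v)

/-- The Hilbert transform: the principal value at the points where it exists (that is, almost
everywhere, for `f` in `L¹`), and `0` at the other points. -/
noncomputable def H (f : ℝ → ℂ) (x : ℝ) : ℂ := by
  classical exact if h : ∃ v, HasPV f x v then h.choose else 0

/-- A weight: a measurable, locally integrable, nonnegative function that is not a.e. zero. -/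
structure IsWeight (U : ℝ → ℝ) : Prop where
  measurable : Measurable U
  nonneg : ∀ x, 0 ≤ U x
  locallyIntegrable : LocallyIntegrable U
  ne_zero : ¬ (∀ᵐ x, U x = 0)

/-- The class `A_p`: weights `W` such that the product of the average of `W` and the `(p-1)`-th
power of the average of `W^(-1/(p-1))` is bounded over the bounded intervals. The integrals are
taken in `[0, ∞]`, and a negative power of `0` is `∞`. -/
def MemAp (p : ℝ) (W : ℝ → ℝ) : Prop :=
  IsWeight W ∧ ∃ K : ℝ≥0, ∀ a b : ℝ, a < b →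
    ((∫⁻ x in Ioo a b, ENNReal.ofReal (W x)) / ENNReal.ofReal (b - a)) *
      ((∫⁻ x in Ioo a b, ENNReal.ofReal (W x) ^ (-1 / (p - 1))) / ENNReal.ofReal (b - a)) ^ (p - 1)
      ≤ K

/-- `U` is admissible: the weighted inequality for all complex integrable functions of mean zero. -/
def Admissible (p : ℝ) (U : ℝ → ℝ) : Prop :=
  ∃ C : ℝ≥0, ∀ f : ℝ → ℂ, Integrable f → ∫ y, f y = 0 →
    ∫⁻ x, ‖H f x‖ₑ ^ p * ENNReal.ofReal (U x) ≤ C * ∫⁻ x, ‖f x‖ₑ ^ p * ENNReal.ofReal (U x)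

/-- The same for real functions only. -/
def AdmissibleReal (p : ℝ) (U : ℝ → ℝ) : Prop :=
  ∃ C : ℝ≥0, ∀ f : ℝ → ℝ, Integrable f → ∫ y, f y = 0 →
    ∫⁻ x, ‖H (fun y => (f y : ℂ)) x‖ₑ ^ p * ENNReal.ofReal (U x) ≤
      C * ∫⁻ x, ‖f x‖ₑ ^ p * ENNReal.ofReal (U x)

/-- The condition: one of `U`, `U/(1+|x|)^p`, `U/|x-c|^p` (for some real `c`) is in `A_p`. -/
def Condition (p : ℝ) (U : ℝ → ℝ) : Prop :=
  MemAp p U ∨ MemAp p (fun x => U x / (1 + |x|) ^ p) ∨
    ∃ c : ℝ, MemAp p (fun x => U x / |x - c| ^ p)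

open Pool.Agent.P8H66.WT Pool.Dav

lemma H_eq (f : ℝ → ℂ) (x : ℝ) : H f x = hilbert f x := by
  have h1 : ∀ δ, truncated f δ x = truncH f δ x := by
    intro δ
    unfold truncated truncH
    have : {y : ℝ | δ < |y - x|} = {y : ℝ | δ < |x - y|} := by
      ext y
      rw [mem_ofPred_eq, mem_ofPred_eq, abs_sub_comm]
    rw [this]
  have h2 : ∀ v, HasPV f x v ↔ HasHilbert f x v := by
    intro v
    unfold HasPV HasHilbert
    simp_rw [h1]
  by_cases h : ∃ v, HasPV f x v
  · have h3 := h.choose_spec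
    have h4 : H f x = h.choose := by
      unfold H
      rw [dif_pos h]
    rw [h4]
    exact (hilbert_eq ((h2 _).1 h3)).symm
  · have h4 : H f x = 0 := by
      unfold H
      rw [dif_neg h]
    rw [h4]
    unfold hilbert
    rw [dif_neg]
    rintro ⟨v, hv⟩
    exact h ⟨v, (h2 v).2 hv⟩

/-! ### from averages to integrals -/

lemma avg_iff {p : ℝ} (hp : 1 < p) (A B K : ℝ≥0∞) {a b : ℝ} (hab : a < b) :
    A / ENNReal.ofReal (b - a) * (B / ENNReal.ofReal (b - a)) ^ (p - 1) ≤ K ↔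
      A * B ^ (p - 1) ≤ K * ENNReal.ofReal (b - a) ^ p := by
  have hp1 : 0 < p - 1 := by linarith
  set ℓ := ENNReal.ofReal (b - a) with hℓ
  have hℓ0 : ℓ ≠ 0 := by
    rw [hℓ, Ne, ENNReal.ofReal_eq_zero]; linarith
  have hℓt : ℓ ≠ ∞ := ENNReal.ofReal_ne_top
  have hℓp0 : ℓ ^ p ≠ 0 := by
    rw [Ne, ENNReal.rpow_eq_zero_iff]
    rintro (⟨h6, -⟩ | ⟨h6, -⟩)
    · exact hℓ0 h6
    · exact hℓt h6
  have hℓpt : ℓ ^ p ≠ ∞ := ENNReal.rpow_ne_top_of_nonneg (by linarith) hℓt
  have e : A / ℓ * (B / ℓ) ^ (p - 1) = A * B ^ (p - 1) / ℓ ^ p := by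
    rw [ENNReal.div_rpow_of_nonneg _ _ hp1.le, div_eq_mul_inv, div_eq_mul_inv, div_eq_mul_inv,
      ← ENNReal.rpow_neg_one ℓ, ← ENNReal.rpow_neg, ← ENNReal.rpow_neg]
    have e1 : ℓ ^ (-p) = ℓ ^ (-1 : ℝ) * ℓ ^ (-(p - 1)) := by
      rw [← ENNReal.rpow_add _ _ hℓ0 hℓt]
      congr 1; ring
    rw [e1]
    ring
  rw [e]
  exact ENNReal.div_le_iff hℓp0 hℓpt

lemma weight_loc {U : ℝ → ℝ} (hU : IsWeight U) (a b : ℝ) :
    ∫⁻ x in Ioo a b, ENNReal.ofReal (U x) ≠ ∞ := by
  have h1 : IntegrableOn U (Icc a b) := hU.locallyIntegrable.integrableOn_isCompact isCompact_Icc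
  have h2 : IntegrableOn U (Ioo a b) := h1.mono_set Ioo_subset_Icc_self
  have h3 := h2.hasFiniteIntegral
  unfold HasFiniteIntegral at h3
  refine (lt_of_le_of_lt (lintegral_mono fun x => ?_) h3).ne
  rw [← ofReal_norm, Real.norm_eq_abs, abs_of_nonneg (hU.nonneg x)]

/-- a weight in `A_p` is positive a.e., and can be replaced by a nondegenerate one -/
lemma memAp_nd {p : ℝ} (hp : 1 < p) {W : ℝ → ℝ} (hW : MemAp p W) :
    ∃ (K : ℝ≥0) (w : ℝ → ℝ≥0∞), Ap p K w ∧ ∀ᵐ x : ℝ, ENNReal.ofReal (W x) = w x := by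
  obtain ⟨hw, K, hK⟩ := hW
  have hp1 : 0 < p - 1 := by linarith
  have hm : Measurable fun x => ENNReal.ofReal (W x) := hw.measurable.ennreal_ofReal
  -- there is an interval on which the integral is nonzero
  have hex : ∃ n : ℕ, ∀ m : ℕ, n ≤ m → ∫⁻ x in Ioo (-(m:ℝ)) m, ENNReal.ofReal (W x) ≠ 0 := by
    by_contra hcon
    push Not at hcon
    apply hw.ne_zero
    have h1 : ∀ n : ℕ, ∀ᵐ x ∂(volume.restrict (Ioo (-(n:ℝ)) n)), W x = 0 := by
      intro n
      obtain ⟨m, hnm, hm0⟩ := hcon n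
      rw [lintegral_eq_zero_iff hm] at hm0
      have hsub : Ioo (-(n:ℝ)) n ⊆ Ioo (-(m:ℝ)) m := by
        have : (n:ℝ) ≤ m := by exact_mod_cast hnm
        exact Ioo_subset_Ioo (by linarith) this
      have h2 := ae_mono (Measure.restrict_mono_set volume hsub) hm0
      filter_upwards [h2] with x hx
      have h3 : ENNReal.ofReal (W x) = 0 := hx
      rw [ENNReal.ofReal_eq_zero] at h3
      exact le_antisymm h3 (hw.nonneg x)
    have h4 : ∀ᵐ x : ℝ, ∀ n : ℕ, x ∈ Ioo (-(n:ℝ)) n → W x = 0 := by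
      rw [ae_all_iff]
      intro n
      exact (ae_restrict_iff' measurableSet_Ioo).1 (h1 n)
    filter_upwards [h4] with x hx
    obtain ⟨n, hn⟩ := exists_nat_gt |x|
    exact hx n (abs_lt.1 hn)
  obtain ⟨n, hn⟩ := hex
  have hpos : ∀ᵐ x : ℝ, ENNReal.ofReal (W x) ≠ 0 := by
    have h1 : ∀ m : ℕ, n + 1 ≤ m → ∀ᵐ x ∂(volume.restrict (Ioo (-(m:ℝ)) m)),
        ENNReal.ofReal (W x) ≠ 0 := by
      intro m hm1
      have hm0 : (0:ℝ) < m := by
        have : (n:ℝ) + 1 ≤ m := by exact_mod_cast hm1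
        have : (0:ℝ) ≤ n := Nat.cast_nonneg n
        linarith
      have h2 := (avg_iff hp _ _ _ (by linarith : -(m:ℝ) < m)).1 (hK (-(m:ℝ)) m (by linarith))
      have h3 : ∫⁻ x in Ioo (-(m:ℝ)) m, ENNReal.ofReal (W x) ^ (-1 / (p - 1)) ≠ ∞ := by
        intro htop
        rw [htop, ENNReal.top_rpow_of_pos hp1, ENNReal.mul_top (hn m (by omega))] at h2
        have h4 : (K:ℝ≥0∞) * ENNReal.ofReal (m - -(m:ℝ)) ^ p < ∞ :=
          ENNReal.mul_lt_top ENNReal.coe_lt_top
            (ENNReal.rpow_lt_top_of_nonneg (by linarith) ENNReal.ofReal_ne_top)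
        exact absurd h2 (not_le.2 h4)
      have h5 := ae_lt_top (hm.pow_const (-1 / (p - 1))) h3
      filter_upwards [h5] with x hx h0
      rw [h0, ENNReal.zero_rpow_of_neg (by
        rw [neg_div]; exact neg_neg_of_pos (by positivity))] at hx
      exact lt_irrefl _ hx
    have h4 : ∀ᵐ x : ℝ, ∀ m : ℕ, n + 1 ≤ m → x ∈ Ioo (-(m:ℝ)) m → ENNReal.ofReal (W x) ≠ 0 := by
      rw [ae_all_iff]
      intro m
      by_cases hm1 : n + 1 ≤ m
      · filter_upwards [(ae_restrict_iff' measurableSet_Ioo).1 (h1 m hm1)] with x hx _ h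
        exact hx h
      · exact Eventually.of_forall fun x h => absurd h hm1
    filter_upwards [h4] with x hx
    obtain ⟨m, hm1⟩ := exists_nat_gt |x|
    refine hx (max m (n + 1)) (le_max_right _ _) (abs_lt.1 (lt_of_lt_of_le hm1 ?_))
    exact_mod_cast le_max_left _ _
  refine ⟨K, fun x => if ENNReal.ofReal (W x) = 0 then 1 else ENNReal.ofReal (W x),
    ⟨?_, ?_, ?_, ?_⟩, ?_⟩
  · exact Measurable.ite (hm (measurableSet_singleton 0)) measurable_const hm
  · intro x
    split_ifs with h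
    · exact one_ne_zero
    · exact h
  · intro x
    split_ifs with h
    · exact ENNReal.one_ne_top
    · exact ENNReal.ofReal_ne_top
  · intro a b hab
    have h1 := (avg_iff hp _ _ _ hab).1 (hK a b hab)
    refine le_trans (le_of_eq ?_) h1
    congr 1
    · refine lintegral_congr_ae (ae_restrict_of_ae ?_)
      filter_upwards [hpos] with x hx
      rw [if_neg hx]
    · congr 1
      refine lintegral_congr_ae (ae_restrict_of_ae ?_)
      filter_upwards [hpos] with x hx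
      rw [if_neg hx]
  · filter_upwards [hpos] with x hx
    rw [if_neg hx]

lemma rpow_anti {x y : ℝ≥0∞} {z : ℝ} (hz : z ≤ 0) (h : x ≤ y) : y ^ z ≤ x ^ z := by
  rw [← neg_neg z, ENNReal.rpow_neg y, ENNReal.rpow_neg x]
  exact ENNReal.inv_le_inv.2 (ENNReal.rpow_le_rpow h (by linarith))

lemma scale_rpow {c : ℝ≥0∞} (hc : c ≠ ∞) (hc0 : c ≠ 0) (w : ℝ≥0∞) {z : ℝ} (hz : 0 ≤ z) :
    (c⁻¹ * w) ^ (-z) = c ^ z * w ^ (-z) := by
  have h1 : c ^ z ≠ 0 := by
    rw [Ne, ENNReal.rpow_eq_zero_iff]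
    rintro (⟨h6, -⟩ | ⟨h6, -⟩)
    · exact hc0 h6
    · exact hc h6
  have h2 : c ^ z ≠ ∞ := ENNReal.rpow_ne_top_of_nonneg hz hc
  rw [ENNReal.rpow_neg, ENNReal.mul_rpow_of_nonneg _ _ hz, ENNReal.inv_rpow,
    ENNReal.mul_inv (Or.inl (ENNReal.inv_ne_zero.2 h2)) (Or.inl (ENNReal.inv_ne_top.2 h1)),
    inv_inv, ENNReal.rpow_neg]

/-- comparison of nondegenerate weights -/
lemma Ap_comp {p : ℝ} (hp : 1 < p) {K : ℝ≥0} {w w' : ℝ → ℝ≥0∞} (h : Ap p K w)
    (hm : Measurable w') {c : ℝ≥0} (h1 : ∀ x, w x ≤ w' x) (h2 : ∀ x, w' x ≤ c * w x) :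
    Ap p (c * K) w' := by
  have hp1 : 0 < p - 1 := by linarith
  refine ⟨hm, fun x h0 => h.ne0 x (nonpos_iff_eq_zero.1 ((h1 x).trans h0.le)), fun x => ?_, ?_⟩
  · exact ((h2 x).trans_lt (ENNReal.mul_lt_top ENNReal.coe_lt_top (h.net x).lt_top)).ne
  · intro a b hab
    calc (∫⁻ x in Ioo a b, w' x) * (∫⁻ x in Ioo a b, w' x ^ (-1 / (p - 1))) ^ (p - 1)
        ≤ (∫⁻ x in Ioo a b, c * w x) * (∫⁻ x in Ioo a b, w x ^ (-1 / (p - 1))) ^ (p - 1) := by
          refine mul_le_mul' (lintegral_mono fun x => h2 x) ?_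
          refine ENNReal.rpow_le_rpow (lintegral_mono fun x => ?_) hp1.le
          exact rpow_anti (by
            rw [neg_div]; exact neg_nonpos.2 (by positivity)) (h1 x)
      _ = c * ((∫⁻ x in Ioo a b, w x) * (∫⁻ x in Ioo a b, w x ^ (-1 / (p - 1))) ^ (p - 1)) := by
          rw [lintegral_const_mul _ h.meas, mul_assoc]
      _ ≤ c * (K * ENNReal.ofReal (b - a) ^ p) := mul_le_mul' le_rfl (h.bound a b hab)
      _ = _ := by push_cast; ring

lemma norm_xi (x : ℝ) : 0 < ‖(x : ℂ) + Complex.I‖ ∧ ‖(x : ℂ) + Complex.I‖ ≤ 1 + |x| ∧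
    1 + |x| ≤ 2 * ‖(x : ℂ) + Complex.I‖ := by
  have h1 : |x| ≤ ‖(x : ℂ) + Complex.I‖ := by
    have := Complex.abs_re_le_norm ((x : ℂ) + Complex.I)
    simpa using this
  have h2 : 1 ≤ ‖(x : ℂ) + Complex.I‖ := by
    have := Complex.abs_im_le_norm ((x : ℂ) + Complex.I)
    simpa using this
  refine ⟨by linarith, ?_, by linarith⟩
  refine (norm_add_le _ _).trans ?_
  simp [add_comm]

lemma suff_part {p : ℝ} (hp : 1 < p) {U : ℝ → ℝ} (h : Condition p U) :
    Admissible p U := by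
  have hp0 : 0 < p := by linarith
  -- it suffices to exhibit the affine function and the nondegenerate weight
  suffices H0 : ∃ (K : ℝ≥0) (w : ℝ → ℝ≥0∞) (α β : ℂ), Ap p K w ∧
      ∀ᵐ x : ℝ, ENNReal.ofReal (U x) = ‖α * x + β‖ₑ ^ p * w x by
    obtain ⟨K, w, α, β, hw, hae⟩ := H0
    obtain ⟨C, hC⟩ := suff p hp K
    refine ⟨C, fun f hf hf0 => ?_⟩
    simp_rw [H_eq]
    exact hC w hw α β _ hae f hf hf0
  rcases h with h | h | ⟨c, h⟩
  · obtain ⟨K, w, hw, hae⟩ := memAp_nd hp h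
    refine ⟨K, w, 0, 1, hw, ?_⟩
    filter_upwards [hae] with x hx
    rw [hx]
    simp
  · obtain ⟨K, w, hw, hae⟩ := memAp_nd hp h
    set r : ℝ → ℝ := fun x => ((1 + |x|) / ‖(x : ℂ) + Complex.I‖) ^ p with hr
    have hrm : Measurable r := by
      rw [hr]
      fun_prop
    have hr1 : ∀ x, 1 ≤ r x := by
      intro x
      obtain ⟨n1, n2, n3⟩ := norm_xi x
      apply Real.one_le_rpow _ hp0.le
      rwa [one_le_div n1]
    have hr2 : ∀ x, r x ≤ 2 ^ p := by
      intro x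
      obtain ⟨n1, n2, n3⟩ := norm_xi x
      apply Real.rpow_le_rpow (by positivity) _ hp0.le
      rwa [div_le_iff₀ n1]
    refine ⟨Real.toNNReal (2 ^ p) * K, fun x => ENNReal.ofReal (r x) * w x, 1, Complex.I, ?_, ?_⟩
    · refine Ap_comp hp hw (hrm.ennreal_ofReal.mul hw.meas) (fun x => ?_) (fun x => ?_)
      · have h1 : (1:ℝ≥0∞) ≤ ENNReal.ofReal (r x) := by
          rw [← ENNReal.ofReal_one]
          exact ENNReal.ofReal_le_ofReal (hr1 x)
        exact le_mul_of_one_le_left zero_le h1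
      · exact mul_le_mul' (ENNReal.ofReal_le_ofReal (hr2 x)) le_rfl
    · filter_upwards [hae] with x hx
      obtain ⟨n1, n2, n3⟩ := norm_xi x
      rw [one_mul, ← hx, ← ofReal_norm, ENNReal.ofReal_rpow_of_pos n1,
        ← ENNReal.ofReal_mul (by rw [hr]; positivity), ← ENNReal.ofReal_mul (by positivity)]
      congr 1
      rw [hr]
      simp only
      rw [Real.div_rpow (by positivity) (by positivity)]
      have h1 : (0:ℝ) < (1 + |x|) ^ p := by positivity
      have h2 : 0 < ‖(x : ℂ) + Complex.I‖ ^ p := by positivity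
      field_simp
  · obtain ⟨K, w, hw, hae⟩ := memAp_nd hp h
    refine ⟨K, w, 1, -c, hw, ?_⟩
    have hne : ∀ᵐ x : ℝ, x ≠ c := by
      rw [ae_iff]; simp
    filter_upwards [hae, hne] with x hx hxc
    have h0 : 0 < |x - c| := abs_pos.2 (sub_ne_zero.2 hxc)
    rw [one_mul, ← hx, ← ofReal_norm, ← sub_eq_add_neg, ← Complex.ofReal_sub, Complex.norm_real,
      Real.norm_eq_abs, ENNReal.ofReal_rpow_of_pos h0, ← ENNReal.ofReal_mul (by positivity)]
    congr 1
    have h1 : 0 < |x - c| ^ p := by positivity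
    field_simp

lemma complex_to_real {p : ℝ} {U : ℝ → ℝ} (h : Admissible p U) : AdmissibleReal p U := by
  obtain ⟨C, hC⟩ := h
  refine ⟨C, fun f hf hf0 => ?_⟩
  have h1 := hC (fun y => (f y : ℂ)) hf.ofReal (by
    rw [integral_complex_ofReal, hf0, Complex.ofReal_zero])
  refine h1.trans (le_of_eq ?_)
  congr 1
  refine lintegral_congr fun x => ?_
  rw [← ofReal_norm, ← ofReal_norm, Complex.norm_real]

/-- from a bound to membership in `A_p` -/
lemma memAp_of_bound {p : ℝ} (hp : 1 < p) {U W : ℝ → ℝ} (hU : IsWeight U) (hWm : Measurable W)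
    (hW0 : ∀ x, 0 ≤ W x) (hWU : ∀ᵐ x : ℝ, W x = 0 → U x = 0) {w : ℝ → ℝ≥0∞}
    (hwt : ∀ᵐ x : ℝ, w x ≠ ∞) (h1 : ∀ᵐ x : ℝ, ENNReal.ofReal (W x) ≤ w x) {c : ℝ≥0∞}
    (hc : c ≠ ∞) (hc0 : c ≠ 0) (h2 : ∀ᵐ x : ℝ, w x ≤ c * ENNReal.ofReal (W x)) (hwm : Measurable w)
    {K : ℝ≥0∞} (hK : K ≠ ∞)
    (hb : ∀ a b : ℝ, a < b → (∫⁻ x in Ioo a b, w x) *
      (∫⁻ x in Ioo a b, w x ^ (-1 / (p - 1))) ^ (p - 1) ≤ K * ENNReal.ofReal (b - a) ^ p) :
    MemAp p W := by
  have hp0 : 0 < p := by linarith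
  have hp1 : 0 < p - 1 := by linarith
  have hneg : -1 / (p - 1) ≤ 0 := by rw [neg_div]; exact neg_nonpos.2 (by positivity)
  have hfin : ∀ a b : ℝ, a < b → ∫⁻ x in Ioo a b, w x ≠ ∞ := by
    intro a b hab htop
    have h3 := hb a b hab
    rw [htop, ENNReal.top_mul] at h3
    · have h4 : K * ENNReal.ofReal (b - a) ^ p < ∞ :=
        ENNReal.mul_lt_top hK.lt_top
          (ENNReal.rpow_lt_top_of_nonneg hp0.le ENNReal.ofReal_ne_top)
      exact absurd h3 (not_le.2 h4)
    · rw [Ne, ENNReal.rpow_eq_zero_iff]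
      rintro (⟨h5, -⟩ | ⟨-, h5⟩)
      · rw [lintegral_eq_zero_iff (hwm.pow_const _)] at h5
        have h6 : ∀ᵐ x ∂(volume.restrict (Ioo a b)), False := by
          filter_upwards [h5, ae_restrict_of_ae hwt] with x hx hx2
          have h7 : w x ^ (-1 / (p - 1)) = 0 := hx
          rw [ENNReal.rpow_eq_zero_iff] at h7
          rcases h7 with ⟨-, h8⟩ | ⟨h8, -⟩
          · linarith
          · exact hx2 h8
        have h9 : volume (Ioo a b) = 0 := by
          rw [← Measure.restrict_apply_univ]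
          rw [ae_iff] at h6
          simpa using h6
        rw [Real.volume_Ioo, ENNReal.ofReal_eq_zero] at h9
        linarith
      · linarith
  refine ⟨⟨hWm, hW0, ?_, ?_⟩, (c * K).toNNReal, fun a b hab => ?_⟩
  · intro x
    refine ⟨Ioo (x - 1) (x + 1), Ioo_mem_nhds (by linarith) (by linarith),
      hWm.aestronglyMeasurable, ?_⟩
    unfold HasFiniteIntegral
    refine lt_of_le_of_lt (lintegral_mono_ae (ae_restrict_of_ae ?_))
      (hfin (x - 1) (x + 1) (by linarith)).lt_top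
    filter_upwards [h1] with y hy
    rw [← ofReal_norm, Real.norm_eq_abs, abs_of_nonneg (hW0 y)]
    exact hy
  · intro h0
    apply hU.ne_zero
    filter_upwards [h0, hWU] with x hx hx2
    exact hx2 hx
  · rw [avg_iff hp _ _ _ hab, ENNReal.coe_toNNReal (ENNReal.mul_ne_top hc hK)]
    have e1 : ∀ᵐ x : ℝ, ENNReal.ofReal (W x) ^ (-1 / (p - 1)) ≤
        c ^ (1 / (p - 1)) * w x ^ (-1 / (p - 1)) := by
      filter_upwards [h2] with x hx
      have h3 : c⁻¹ * w x ≤ ENNReal.ofReal (W x) := by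
        calc c⁻¹ * w x ≤ c⁻¹ * (c * ENNReal.ofReal (W x)) := by gcongr
          _ = _ := by rw [← mul_assoc, ENNReal.inv_mul_cancel hc0 hc, one_mul]
      refine (rpow_anti hneg h3).trans (le_of_eq ?_)
      rw [neg_div, scale_rpow hc hc0 _ (by positivity)]
    calc (∫⁻ x in Ioo a b, ENNReal.ofReal (W x)) *
          (∫⁻ x in Ioo a b, ENNReal.ofReal (W x) ^ (-1 / (p - 1))) ^ (p - 1)
        ≤ (∫⁻ x in Ioo a b, w x) *
          (∫⁻ x in Ioo a b, c ^ (1 / (p - 1)) * w x ^ (-1 / (p - 1))) ^ (p - 1) := by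
          refine mul_le_mul' (lintegral_mono_ae (ae_restrict_of_ae h1)) ?_
          exact ENNReal.rpow_le_rpow (lintegral_mono_ae (ae_restrict_of_ae e1)) hp1.le
      _ = c * ((∫⁻ x in Ioo a b, w x) * (∫⁻ x in Ioo a b, w x ^ (-1 / (p - 1))) ^ (p - 1)) := by
          rw [lintegral_const_mul _ (hwm.pow_const _), ENNReal.mul_rpow_of_nonneg _ _ hp1.le,
            ← ENNReal.rpow_mul, one_div_mul_cancel hp1.ne', ENNReal.rpow_one]
          ring
      _ ≤ c * (K * ENNReal.ofReal (b - a) ^ p) := mul_le_mul' le_rfl (hb a b hab)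
      _ = _ := by ring

lemma nec_part {p : ℝ} (hp : 1 < p) {U : ℝ → ℝ} (hU : IsWeight U) (h : AdmissibleReal p U) :
    Condition p U := by
  have hp0 : 0 < p := by linarith
  have hp1 : 0 < p - 1 := by linarith
  obtain ⟨C, hC⟩ := h
  set u : ℝ → ℝ≥0∞ := fun x => ENNReal.ofReal (U x) with hu
  have hum : Measurable u := hU.measurable.ennreal_ofReal
  have hut : ∀ x, u x ≠ ∞ := fun x => ENNReal.ofReal_ne_top
  have hA : AdmR p u C := by
    intro f hf hf0
    have h1 := hC f hf hf0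
    simp_rw [H_eq] at h1
    exact h1
  have hCt : (C:ℝ≥0∞) ≠ ∞ := ENNReal.coe_ne_top
  have h2p : (2:ℝ≥0∞) ^ p ≠ ∞ := ENNReal.rpow_ne_top_of_nonneg hp0.le (by norm_num)
  have hloc := weight_loc hU
  by_cases hB : ∃ c : ℝ, ∀ ε : ℝ, 0 < ε →
      ∫⁻ x in Ioo (c - ε) (c + ε), u x ^ (-1 / (p - 1)) = ∞
  · -- mass near a point
    obtain ⟨c, hc⟩ := hB
    right; right
    refine ⟨c, ?_⟩
    have hcl := claimB hp hum hut hCt hA hc
    have hne : ∀ᵐ x : ℝ, x ≠ c := by
      rw [ae_iff]; simp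
    have hθm : Measurable fun x : ℝ => ((x - c : ℝ) : ℂ) := by fun_prop
    have hb := fun a b (hab : a < b) => ap_bound hp hum (κ := fun x => (((x - c : ℝ) : ℂ))⁻¹)
      (θ := fun x => ((x - c : ℝ) : ℂ)) hθm hθm.inv (fun x y hxy hx => by
        have h1 : ((x - y : ℝ) : ℂ) ≠ 0 := by
          rw [Ne, Complex.ofReal_eq_zero]; exact sub_ne_zero.2 hxy
        field_simp
        push_cast
        ring) (by
        filter_upwards [hne] with x hx
        rw [Ne, Complex.ofReal_eq_zero]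
        exact sub_ne_zero.2 hx) hcl hab
    have heq : ∀ᵐ x : ℝ, ENNReal.ofReal (U x / |x - c| ^ p) = u x / ‖((x - c : ℝ) : ℂ)‖ₑ ^ p := by
      filter_upwards [hne] with x hx
      have h0 : 0 < |x - c| := abs_pos.2 (sub_ne_zero.2 hx)
      rw [← ofReal_norm, Complex.norm_real, Real.norm_eq_abs, ENNReal.ofReal_rpow_of_pos h0,
        ← ENNReal.ofReal_div_of_pos (by positivity)]
    refine memAp_of_bound hp hU (W := fun x => U x / |x - c| ^ p) (by
      have := hU.measurable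
      fun_prop) (fun x => div_nonneg (hU.nonneg x) (by positivity)) ?_
      (w := fun x => u x / ‖((x - c : ℝ) : ℂ)‖ₑ ^ p) ?_ ?_ (c := 1) (by norm_num) (by norm_num) ?_
      (hum.div (hθm.enorm.pow_const _))
      (ENNReal.mul_ne_top (DD_net hp (ENNReal.mul_ne_top h2p hCt))
        (DD_net hp (ENNReal.mul_ne_top h2p hCt))) hb
    · filter_upwards [hne] with x hx h1
      have h0 : 0 < |x - c| := abs_pos.2 (sub_ne_zero.2 hx)
      rw [div_eq_zero_iff] at h1
      rcases h1 with h1 | h1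
      · exact h1
      · exact absurd h1 (by positivity)
    · filter_upwards [heq] with x hx
      rw [← hx]
      exact ENNReal.ofReal_ne_top
    · filter_upwards [heq] with x hx
      exact hx.le
    · filter_upwards [heq] with x hx
      rw [one_mul]
      exact hx.ge
  push Not at hB
  -- the dual weight is locally integrable
  have hσl : IsLocallyFiniteMeasure (volume.withDensity fun x => u x ^ (-1 / (p - 1))) := by
    refine ⟨fun x => ?_⟩
    obtain ⟨ε, hε, h1⟩ := hB x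
    refine ⟨Ioo (x - ε) (x + ε), Ioo_mem_nhds (by linarith) (by linarith), ?_⟩
    rw [withDensity_apply _ measurableSet_Ioo]
    exact lt_top_iff_ne_top.2 h1
  have hσloc : ∀ a b : ℝ, ∫⁻ x in Ioo a b, u x ^ (-1 / (p - 1)) ≠ ∞ := by
    intro a b
    rw [← withDensity_apply _ measurableSet_Ioo]
    exact measure_Ioo_lt_top.ne
  by_cases hinf : ∫⁻ x, u x ^ (-1 / (p - 1)) = ∞
  · -- mass at infinity
    left
    have hcl := claimA hp hum hut hCt hA hσloc hinf
    have hb := fun a b (hab : a < b) => ap_bound hp hum (κ := fun _ => 0)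
      (θ := fun _ => 1) measurable_const measurable_const (fun x y hxy hx => by
        simp) (Eventually.of_forall fun x => one_ne_zero) hcl hab
    have e1 : ∀ x, u x / ‖(1:ℂ)‖ₑ ^ p = u x := by
      intro x
      simp
    simp_rw [e1] at hb
    refine memAp_of_bound hp hU (W := U) hU.measurable hU.nonneg
      (Eventually.of_forall fun x h => h) (w := u) (Eventually.of_forall hut)
      (Eventually.of_forall fun x => le_rfl) (c := 1) (by norm_num) (by norm_num)
      (Eventually.of_forall fun x => by rw [one_mul]) hum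
      (ENNReal.mul_ne_top (DD_net hp (ENNReal.mul_ne_top h2p hCt))
        (DD_net hp (ENNReal.mul_ne_top h2p hCt))) hb
  · -- integrable dual weight
    right; left
    obtain ⟨D, hD, hcl⟩ := claimC hp hum hut hCt hA hloc hinf
    have hθm : Measurable fun x : ℝ => (x : ℂ) + Complex.I := by fun_prop
    have hθ0 : ∀ x : ℝ, (x : ℂ) + Complex.I ≠ 0 := fun x => norm_pos_iff.1 (norm_xi x).1
    have hb := fun a b (hab : a < b) => ap_bound hp hum (κ := fun x => ((x : ℂ) + Complex.I)⁻¹)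
      (θ := fun x => (x : ℂ) + Complex.I) hθm hθm.inv (fun x y hxy hx => by
        have h1 : ((x - y : ℝ) : ℂ) ≠ 0 := by
          rw [Ne, Complex.ofReal_eq_zero]; exact sub_ne_zero.2 hxy
        field_simp
        push_cast
        ring) (Eventually.of_forall hθ0) hcl hab
    have hw : ∀ x, u x / ‖(x : ℂ) + Complex.I‖ₑ ^ p =
        ENNReal.ofReal (U x / ‖(x : ℂ) + Complex.I‖ ^ p) := by
      intro x
      obtain ⟨n1, n2, n3⟩ := norm_xi x
      rw [← ofReal_norm, ENNReal.ofReal_rpow_of_pos n1, ← ENNReal.ofReal_div_of_pos (by positivity)]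
    have hc0 : ENNReal.ofReal (2 ^ p) ≠ 0 := by
      rw [Ne, ENNReal.ofReal_eq_zero, not_le]; positivity
    refine memAp_of_bound hp hU (W := fun x => U x / (1 + |x|) ^ p) (by
      have := hU.measurable
      fun_prop) (fun x => div_nonneg (hU.nonneg x) (by positivity)) ?_
      (w := fun x => u x / ‖(x : ℂ) + Complex.I‖ₑ ^ p) ?_ ?_
      (c := ENNReal.ofReal (2 ^ p)) ENNReal.ofReal_ne_top hc0 ?_
      (hum.div (hθm.enorm.pow_const _))
      (ENNReal.mul_ne_top (DD_net hp hD) (DD_net hp hD)) hb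
    · refine Eventually.of_forall fun x h1 => ?_
      rw [div_eq_zero_iff] at h1
      rcases h1 with h1 | h1
      · exact h1
      · exact absurd h1 (by positivity)
    · refine Eventually.of_forall fun x => ?_
      rw [hw]
      exact ENNReal.ofReal_ne_top
    · refine Eventually.of_forall fun x => ?_
      obtain ⟨n1, n2, n3⟩ := norm_xi x
      rw [hw]
      apply ENNReal.ofReal_le_ofReal
      have := hU.nonneg x
      gcongr
    · refine Eventually.of_forall fun x => ?_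
      obtain ⟨n1, n2, n3⟩ := norm_xi x
      rw [hw, ← ENNReal.ofReal_mul (by positivity)]
      apply ENNReal.ofReal_le_ofReal
      have h3 := hU.nonneg x
      have h4 : (1 + |x|) ^ p ≤ 2 ^ p * ‖(x : ℂ) + Complex.I‖ ^ p := by
        rw [← Real.mul_rpow (by norm_num) n1.le]
        exact Real.rpow_le_rpow (by positivity) n3 hp0.le
      have h5 : 0 < (1 + |x|) ^ p := by positivity
      have h6 : 0 < ‖(x : ℂ) + Complex.I‖ ^ p := by positivity
      rw [← mul_div_assoc, div_le_div_iff₀ h6 h5]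
      calc U x * (1 + |x|) ^ p ≤ U x * (2 ^ p * ‖(x : ℂ) + Complex.I‖ ^ p) := by gcongr
        _ = _ := by ring

/-- **Characterization of the weights for which the Hilbert transform is bounded on functions of
mean zero.** -/
theorem result (p : ℝ) (hp : 1 < p) (U : ℝ → ℝ) (hU : IsWeight U) :
    (Admissible p U ↔ Condition p U) ∧ (AdmissibleReal p U ↔ Condition p U) :=
  ⟨⟨fun h => nec_part hp hU (complex_to_real h), suff_part hp⟩,
    ⟨nec_part hp hU, fun h => complex_to_real (suff_part hp h)⟩⟩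

end Pool.Agent.Results.MP_945c9c_an.MeanZeroWeights
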